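import Pool.Agent.Helper37.LN2.Defs
import Pool.Agent.Helper97.LN.Fin

/-!
# Project LN2, block CLS': from sets of primes to classes modulo `n`-th powers
-/

set_option autoImplicit false

namespace Pool.Agent.LN2

open NumberField IsDedekindDomain WithZero
open Pool.Agent.HG (Pr nm)
open Pool.Agent.LN (IsRam isRam_iff sel_n fin_val isRam_ne_one val_ne)

/-- the number of nonzero nonunits modulo `n` -/
theorem card_nonunits {n : ℕ} (hn : 2 ≤ n) [NeZero n] [DecidablePred fun x : ZMod n => IsUnit x] :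
    ((Finset.univ : Finset (ZMod n)).filter fun x => x ≠ 0 ∧ ¬ IsUnit x).card =
      n - 1 - n.totient := by
  have : Fact (1 < n) := ⟨hn⟩
  have h1 : ((Finset.univ : Finset (ZMod n)).filter fun x => IsUnit x).card = n.totient := by
    rw [← ZMod.card_units_eq_totient n, ← Finset.card_univ,
      ← Finset.card_image_of_injective (Finset.univ : Finset (ZMod n)ˣ)
        (f := fun u : (ZMod n)ˣ => (u : ZMod n)) Units.val_injective]
    congr 1
    ext x
    simp only [Finset.mem_filter, Finset.mem_univ, true_and, Finset.mem_image]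
    exact Iff.rfl
  have h2 := Finset.card_filter_add_card_filter_not (s := (Finset.univ : Finset (ZMod n)))
    (fun x : ZMod n => IsUnit x)
  rw [h1, Finset.card_univ, ZMod.card] at h2
  have h3 : ((Finset.univ : Finset (ZMod n)).filter fun x => x ≠ 0 ∧ ¬ IsUnit x) =
      ((Finset.univ : Finset (ZMod n)).filter fun x => ¬ IsUnit x).erase 0 := by
    ext x
    simp only [Finset.mem_filter, Finset.mem_univ, true_and, Finset.mem_erase]
  rw [h3, Finset.card_erase_of_mem]
  · omega
  · simp only [Finset.mem_filter, Finset.mem_univ, true_and]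
    exact not_isUnit_zero

open scoped Classical in
/-- the functions with values in `ZMod n` with given support whose values at `Q` are not units -/
theorem card_supp {α : Type*} {n : ℕ} (hn : 2 ≤ n) (Q : Set α) (A : Finset α)
    (G : Finset (α → ZMod n)) (hG : ∀ g ∈ G, ∀ a, a ∈ A ↔ g a ≠ 0)
    (hGQ : ∀ g ∈ G, ∀ a ∈ A, a ∈ Q → ¬ IsUnit (g a)) :
    G.card ≤ ∏ a ∈ A, (if a ∈ Q then n - 1 - n.totient else n - 1) := by
  have : NeZero n := ⟨by omega⟩
  let D : α → Finset (ZMod n) := fun a => Finset.univ.filter fun x => x ≠ 0 ∧ (a ∈ Q → ¬ IsUnit x)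
  have hD : ∀ a, (D a).card = if a ∈ Q then n - 1 - n.totient else n - 1 := by
    intro a
    by_cases ha : a ∈ Q
    · rw [if_pos ha, ← card_nonunits hn]
      show (Finset.univ.filter fun x : ZMod n => x ≠ 0 ∧ (a ∈ Q → ¬ IsUnit x)).card = _
      simp only [ha, forall_true_left]
    · rw [if_neg ha]
      show (Finset.univ.filter fun x : ZMod n => x ≠ 0 ∧ (a ∈ Q → ¬ IsUnit x)).card = _
      simp only [ha, IsEmpty.forall_iff, and_true]
      rw [Finset.filter_ne', Finset.card_erase_of_mem (Finset.mem_univ _), Finset.card_univ,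
        ZMod.card]
  have h1 : G.card ≤ (A.pi D).card := by
    refine Finset.card_le_card_of_injOn (fun g a _ => g a) ?_ ?_
    · intro g hg
      rw [Finset.mem_coe, Finset.mem_pi]
      intro a ha
      show g a ∈ Finset.univ.filter fun x : ZMod n => x ≠ 0 ∧ (a ∈ Q → ¬ IsUnit x)
      rw [Finset.mem_filter]
      exact ⟨Finset.mem_univ _, (hG g hg a).1 ha, hGQ g hg a ha⟩
    · intro g hg g' hg' h
      funext a
      by_cases ha : a ∈ A
      · exact congrFun (congrFun h a) ha
      · have i1 : g a = 0 := by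
          by_contra h2
          exact ha ((hG g hg a).2 h2)
        have i2 : g' a = 0 := by
          by_contra h2
          exact ha ((hG g' hg' a).2 h2)
        rw [i1, i2]
  rw [Finset.card_pi] at h1
  refine h1.trans (le_of_eq ?_)
  exact Finset.prod_congr rfl fun a _ => hD a

theorem cls : StmtCLS := by
  classical
  intro k _ _ n hn
  have hn0 : 0 < n := by omega
  have : NeZero n := ⟨by omega⟩
  have : Fact (1 < n) := ⟨hn⟩
  obtain ⟨F, hF0, hF⟩ := sel_n k hn0
  refine ⟨F.card, fun Bd Q Y Φ hBd hSS T hT hTc => ?_⟩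
  have hset : ∀ c : k, ∃ S : Finset (Pr k), c ≠ 0 → ∀ v, v ∈ S ↔ IsRam n v c := by
    intro c
    by_cases hc : c = 0
    · exact ⟨∅, fun h => absurd hc h⟩
    · have hfin' : {v : Pr k | IsRam n v c}.Finite :=
        (fin_val hc).subset fun v hv => isRam_ne_one hv
      exact ⟨hfin'.toFinset, fun _ v => by simp⟩
  choose S hS using hset
  have hNm : ∀ c ∈ T, ∏ v ∈ S c, nm v ≤ Y := by
    intro c hc
    obtain ⟨hc0, hcY, _⟩ := hTc c hc
    refine le_trans (le_of_eq ?_) hcY
    unfold LN.cond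
    rw [finprod_eq_prod_of_mulSupport_subset (s := S c)]
    · refine Finset.prod_congr rfl fun v hv => ?_
      rw [if_pos ((hS c hc0 v).1 hv)]
    · intro v hv
      rw [Function.mem_mulSupport] at hv
      rw [Finset.mem_coe, hS c hc0]
      by_contra h
      exact hv (if_neg h)
  -- the exponents modulo `n`
  let g : k → Pr k → ZMod n := fun c v => ((log (v.valuation k c) : ℤ) : ZMod n)
  have hg : ∀ c ∈ T, ∀ v, v ∈ S c ↔ g c v ≠ 0 := by
    intro c hc v
    rw [hS c (hTc c hc).1, isRam_iff hn0 v (hTc c hc).1]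
    show _ ↔ ((log (v.valuation k c) : ℤ) : ZMod n) ≠ 0
    rw [Ne, ZMod.intCast_zmod_eq_zero_iff_dvd]
  have hgQ : ∀ c ∈ T, ∀ v ∈ S c, v ∈ Q → ¬ IsUnit (g c v) := by
    intro c hc v hv hvQ hu
    obtain ⟨hc0, _, hcB⟩ := hTc c hc
    obtain ⟨d, hdn, hd1, hd⟩ := hBd c hc0 hcB v hvQ ((hS c hc0 v).1 hv)
    rw [isRam_iff (by omega) v hc0, not_not] at hd
    -- `d` divides `n` and the exponent
    have hu' : IsUnit (((log (v.valuation k c) : ℤ) : ZMod n)) := hu
    have h1 := hu'.map (ZMod.castHom hdn (ZMod d))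
    rw [map_intCast, (ZMod.intCast_zmod_eq_zero_iff_dvd _ _).2 hd] at h1
    have : Fact (1 < d) := ⟨hd1⟩
    exact not_isUnit_zero h1
  have hfib : T.card ≤ F.card * (T.image g).card := by
    refine Finset.card_le_mul_card_image (f := g) T F.card ?_
    intro γ hγ
    obtain ⟨c₀, hc₀, rfl⟩ := Finset.mem_image.1 hγ
    have hc₀0 := (hTc c₀ hc₀).1
    have h1 : ∀ c ∈ T.filter (fun c => g c = g c₀), ∃ e ∈ F, ∃ d : k, c / c₀ = e * d ^ n := by
      intro c hc
      obtain ⟨hc1, hc2⟩ := Finset.mem_filter.1 hc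
      have hc0 := (hTc c hc1).1
      refine hF (c / c₀) (div_ne_zero hc0 hc₀0) fun v => ?_
      have h3 := congrFun hc2 v
      have h4 : ((log (v.valuation k c) : ℤ) : ZMod n) = ((log (v.valuation k c₀) : ℤ) : ZMod n) := h3
      rw [map_div₀, log_div (val_ne v hc0) (val_ne v hc₀0)]
      rw [← ZMod.intCast_zmod_eq_zero_iff_dvd, Int.cast_sub, h4, sub_self]
    choose! e he d hd using h1
    refine Finset.card_le_card_of_injOn e he ?_
    intro c hc c' hc' hee
    have hc1 := (Finset.mem_filter.1 hc).1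
    have hc1' := (Finset.mem_filter.1 hc').1
    have hc0' := (hTc c' hc1').1
    have g1 := hd c hc
    have g2 := hd c' hc'
    have hd' : d c' ≠ 0 := by
      intro h
      rw [h, zero_pow hn0.ne', mul_zero] at g2
      exact div_ne_zero hc0' hc₀0 g2
    refine hT c hc1 c' hc1' ⟨d c / d c', ?_⟩
    have hee' : e c = e c' := hee
    have g3 : c / c₀ = c' / c₀ * (d c / d c') ^ n := by
      rw [g1, g2, hee', div_pow]
      have i1 := pow_ne_zero n hd'
      field_simp
    calc c = (c / c₀) * c₀ := (div_mul_cancel₀ _ hc₀0).symm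
      _ = (c' / c₀ * (d c / d c') ^ n) * c₀ := by rw [g3]
      _ = c' * (d c / d c') ^ n := by
        rw [mul_comm, ← mul_assoc, mul_div_cancel₀ _ hc₀0]
  -- the number of functions
  have hcard : ((T.image g).card : ℝ) ≤ ∑ A ∈ T.image S,
      ∏ v ∈ A, (if v ∈ Q then ((n - 1 - n.totient : ℕ) : ℝ) else ((n - 1 : ℕ) : ℝ)) := by
    have hsupp : ∀ γ ∈ T.image g, ∃ A ∈ T.image S, (∀ v, v ∈ A ↔ γ v ≠ 0) ∧
        ∀ v ∈ A, v ∈ Q → ¬ IsUnit (γ v) := by
      intro γ hγ
      obtain ⟨c, hc, rfl⟩ := Finset.mem_image.1 hγ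
      exact ⟨S c, Finset.mem_image_of_mem S hc, hg c hc, hgQ c hc⟩
    choose! s hs1 hs2 hs3 using hsupp
    have h1 : (T.image g).card = ∑ A ∈ T.image S, ((T.image g).filter fun γ => s γ = A).card :=
      Finset.card_eq_sum_card_fiberwise hs1
    rw [h1]
    push_cast
    refine Finset.sum_le_sum fun A _ => ?_
    have h2 := card_supp hn Q A ((T.image g).filter fun γ => s γ = A) (by
      intro γ hγ a
      obtain ⟨h3, h4⟩ := Finset.mem_filter.1 hγ
      rw [← h4]
      exact hs2 γ h3 a) (by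
      intro γ hγ a
      obtain ⟨h3, h4⟩ := Finset.mem_filter.1 hγ
      rw [← h4]
      exact hs3 γ h3 a)
    have h3 : ((∏ a ∈ A, (if a ∈ Q then n - 1 - n.totient else n - 1) : ℕ) : ℝ) =
        ∏ v ∈ A, (if v ∈ Q then ((n - 1 - n.totient : ℕ) : ℝ) else ((n - 1 : ℕ) : ℝ)) := by
      rw [Nat.cast_prod]
      refine Finset.prod_congr rfl fun v _ => ?_
      split_ifs <;> rfl
    rw [← h3]
    exact_mod_cast h2
  have h1 : ∑ A ∈ T.image S,
      ∏ v ∈ A, (if v ∈ Q then ((n - 1 - n.totient : ℕ) : ℝ) else ((n - 1 : ℕ) : ℝ)) ≤ Φ := by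
    refine hSS _ fun A hA => ?_
    obtain ⟨c, hc, rfl⟩ := Finset.mem_image.1 hA
    exact hNm c hc
  calc (T.card : ℝ) ≤ F.card * (T.image g).card := by exact_mod_cast hfib
    _ ≤ F.card * Φ := mul_le_mul_of_nonneg_left (hcard.trans h1) (Nat.cast_nonneg _)

end Pool.Agent.LN2
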