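import Pool.Agent.Helper97.LN2.CLS

/-!
# Project LN2, block FIN': the assembly
-/

set_option autoImplicit false

namespace Pool.Agent.LN2

open NumberField IsDedekindDomain
open Pool.Agent.HG (Pr nm)
open Pool.Agent.LN (GoodCurve HasSec IsRam DecPt clsP cls_lower card_cls_le twists_finite)

/-- the upper bound for the number of classes whose exponents are not prime to `n` at a set of
primes of positive density -/
theorem cls_upper (hUP : StmtUP) (hCLS : StmtCLS) (k : Type) [Field k] [NumberField k] (n : ℕ)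
    (hn : 2 ≤ n) (P : k → Prop) (Q Bad : Set (Pr k)) (hBad : Bad.Finite) (δ C : ℝ)
    (B : ℕ → Finset (Pr k)) (hB : ∀ x v, v ∈ B x ↔ nm v ≤ x)
    (hQ : ∀ c : k, c ≠ 0 → P c → ∀ v ∈ Q, v ∉ Bad → IsRam n v c →
      ∃ d : ℕ, d ∣ n ∧ 1 < d ∧ ¬ IsRam d v c)
    (hsum : ∀ x : ℕ, 2 ≤ x → δ * Real.log (Real.log x) - C ≤
      Finset.sum (@Finset.filter _ (· ∈ Q) (Classical.decPred _) (B x)) fun v => (1 : ℝ) / nm v) :
    ∃ C₁ : ℝ, 0 < C₁ ∧ ∀ X : ℕ, 3 ≤ X → (Nat.card (clsP n P X) : ℝ) ≤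
      C₁ * X * Real.log X ^ (((n - 1 : ℕ) : ℝ) - n.totient * δ - 1) := by
  classical
  have hφ : n.totient ≤ n - 1 := by
    have := Nat.totient_lt n (by omega)
    omega
  obtain ⟨F, hF⟩ := hCLS k n hn
  obtain ⟨C', hC', hup⟩ := hUP k (n - 1) (n - 1 - n.totient) (by omega) (by omega) (Q \ Bad) δ
    (C + ∑ v ∈ hBad.toFinset, (1 : ℝ) / nm v) B hB (by
      intro x hx
      have h1 := hsum x hx
      have h2 : (Finset.sum (@Finset.filter _ (· ∈ Q) (Classical.decPred _) (B x))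
          fun v => (1 : ℝ) / nm v) ≤
          (∑ v ∈ (B x).filter (· ∈ Q \ Bad), (1 : ℝ) / nm v) +
            ∑ v ∈ hBad.toFinset, (1 : ℝ) / nm v := by
        refine le_trans ?_ (Finset.sum_union_inter (s₁ := (B x).filter (· ∈ Q \ Bad))
          (s₂ := hBad.toFinset) (f := fun v => (1 : ℝ) / nm v)).le
        have h3 : 0 ≤ ∑ v ∈ ((B x).filter (· ∈ Q \ Bad)) ∩ hBad.toFinset, (1 : ℝ) / nm v :=
          Finset.sum_nonneg fun _ _ => by positivity
        refine le_trans ?_ (le_add_of_nonneg_right h3)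
        refine Finset.sum_le_sum_of_subset_of_nonneg ?_ fun _ _ _ => by positivity
        intro v hv
        simp only [Finset.mem_filter, Finset.mem_union, Set.Finite.mem_toFinset, Set.mem_sdiff]
          at hv ⊢
        by_cases hvB : v ∈ Bad
        · exact Or.inr hvB
        · exact Or.inl ⟨hv.1, hv.2, hvB⟩
      have key : δ * Real.log (Real.log x) - (C + ∑ v ∈ hBad.toFinset, (1 : ℝ) / nm v) ≤
          ∑ v ∈ (B x).filter (· ∈ Q \ Bad), (1 : ℝ) / nm v := by linarith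
      convert key)
  have hexp : ((n - 1 : ℕ) : ℝ) - (((n - 1 : ℕ) : ℝ) - ((n - 1 - n.totient : ℕ) : ℝ)) * δ - 1 =
      ((n - 1 : ℕ) : ℝ) - n.totient * δ - 1 := by
    rw [Nat.cast_sub hφ]
    ring
  rw [hexp] at hup
  refine ⟨F * C' + 1, by positivity, fun X hX => ?_⟩
  have hX1 : (1 : ℝ) ≤ X := by exact_mod_cast (by omega : 1 ≤ X)
  have hlog0 : 0 ≤ Real.log X := Real.log_nonneg hX1
  have h1 := (card_cls_le (n := n) (by omega) P X (F * (C' * X *
    Real.log X ^ (((n - 1 : ℕ) : ℝ) - n.totient * δ - 1))) fun T h1 h2 => ?_).2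
  · refine h1.trans ?_
    have h2 : 0 ≤ (X : ℝ) * Real.log X ^ (((n - 1 : ℕ) : ℝ) - n.totient * δ - 1) := by positivity
    calc (F : ℝ) * (C' * X * Real.log X ^ (((n - 1 : ℕ) : ℝ) - n.totient * δ - 1))
        = F * C' * (X * Real.log X ^ (((n - 1 : ℕ) : ℝ) - n.totient * δ - 1)) := by ring
      _ ≤ (F * C' + 1) * (X * Real.log X ^ (((n - 1 : ℕ) : ℝ) - n.totient * δ - 1)) :=
          mul_le_mul_of_nonneg_right (by linarith) h2
      _ = _ := by ring
  · exact hF P (Q \ Bad) X _ (fun c hc0 hPc v hv => hQ c hc0 hPc v hv.1 hv.2)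
      (fun SS hSS => hup X hX SS hSS) T h1 h2

theorem fin_of (hLOC : StmtLOC) (hDEN : StmtDEN) (hUP : StmtUP) (hCLS : StmtCLS)
    (hLOW : LN.StmtLOW) (hCLO : LN.StmtCLO) : StmtFin := by
  classical
  intro k K0 _ _ _ _ n h hn hG hσ
  refine ⟨twists_finite n hn, ?_⟩
  obtain ⟨σ, hσ⟩ := hσ
  obtain ⟨Bad, hBad, hloc⟩ := hLOC k K0 n h hn hG
  obtain ⟨B, hB⟩ := Pool.Agent.HG.exists_B5 k
  obtain ⟨δ, C, Q, hδ, hQ, hsum⟩ := hDEN k K0 n h hn hG (fun d => d ∣ n ∧ 1 < d)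
    ⟨dvd_rfl, hn⟩ σ (by
      rintro ⟨P, φ, h1, h2, h3, h4⟩
      exact hσ ⟨P, φ, h1, fun d hd1 hd2 => h2 d ⟨hd1, hd2⟩, h3, h4⟩) B hB
  obtain ⟨C₁, hC₁, hupper⟩ := cls_upper hUP hCLS k n hn (fun c => HasSec n h c) Q Bad hBad δ C B hB
    (by
      intro c hc0 hsec v hvQ hvB hram
      obtain ⟨O, F, p, f, hD, P, φ, h1, h2, h3, h4⟩ := hloc v hvB c hc0 hram hsec
      by_contra hcon
      push Not at hcon
      exact hQ v hvQ O F p f hD ⟨P, φ, h1, fun d hd => h2 d ⟨hd.1, hcon d hd.1 hd.2⟩, h3, h4⟩)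
    (by
      intro x hx
      have h1 := (abs_le.1 (hsum x hx)).1
      have h2 : (Finset.sum (@Finset.filter _ (· ∈ Q) (Classical.decPred _) (B x))
          fun v => (1 : ℝ) / nm v) = ∑ v ∈ (B x).filter (· ∈ Q), (1 : ℝ) / nm v := by
        congr
      rw [h2]
      linarith)
  obtain ⟨c₁, hc₁, hlower⟩ := cls_lower hLOW hCLO k n hn
  have hφ : (0 : ℝ) < n.totient := by exact_mod_cast Nat.totient_pos.2 (by omega)
  refine ⟨n.totient * δ, C₁ / c₁, by positivity, by positivity, fun X hX => ?_⟩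
  have hX3 : (3 : ℝ) ≤ X := by exact_mod_cast hX
  have hlog : 0 < Real.log X := Real.log_pos (by linarith)
  have h1 := hupper X hX
  have h2 := hlower X hX
  refine h1.trans ?_
  rw [le_div_iff₀ (Real.rpow_pos_of_pos hlog _)]
  calc C₁ * X * Real.log X ^ (((n - 1 : ℕ) : ℝ) - n.totient * δ - 1) *
        Real.log X ^ (n.totient * δ)
      = C₁ * X * (Real.log X ^ (((n - 1 : ℕ) : ℝ) - n.totient * δ - 1) *
        Real.log X ^ (n.totient * δ)) := by ring
    _ = C₁ * X * Real.log X ^ (((n - 1 : ℕ) : ℝ) - 1) := by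
        rw [← Real.rpow_add hlog]
        congr 2
        ring
    _ = C₁ / c₁ * (c₁ * X * Real.log X ^ (((n - 1 : ℕ) : ℝ) - 1)) := by field_simp
    _ ≤ C₁ / c₁ * Nat.card (clsP (k := k) n (fun _ => True) X) :=
        mul_le_mul_of_nonneg_left h2 (by positivity)

end Pool.Agent.LN2
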